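import Pool.Agent.Zat.Fin2

/-!
# A uniform short-interval lower bound for `|ζ|` near `Re s = 1` for all `T`

There are `c, c₀ > 0` such that for all large `T`, all `H > 0` and all
`σ ≥ 1 - c₀ H' / log (H' log T + log log T)`, `H' = min H 1`, the integral of `|ζ(σ + it)|` over `[T, T + H]`
is at least `c min(H², H)`.
-/

set_option autoImplicit false

open MeasureTheory

namespace Pool.Agent.Results.MP_73417d_nt.AllT

theorem result : ∃ c c₀ T₀ : ℝ, 0 < c ∧ 0 < c₀ ∧ ∀ T : ℝ, T₀ ≤ T → ∀ H : ℝ, 0 < H → ∀ σ : ℝ,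
    1 - c₀ * min H 1 / Real.log (min H 1 * Real.log T + Real.log (Real.log T)) ≤ σ →
      c * min (H ^ 2) H ≤
        ∫ t in T..(T + H), ‖riemannZeta ((σ : ℂ) + (t : ℂ) * Complex.I)‖ :=
  Pool.Agent.Zat.all_T'

end Pool.Agent.Results.MP_73417d_nt.AllT
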