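import Pool.Agent.ZUni.Final

/-!
# The uniform short-interval lower bound for `|ζ|` near `Re s = 1` for almost all `T`

For every `ε > 0` and `K > 0` there is `c > 0` such that for large `X` and all `T ∈ [X, 2X]` outside a set of
measure at most `X ^ ε`, for all `H > 0` and all `σ ≥ 1 - K / log log T`, the integral of `|ζ(σ + it)|` over
`[T, T + H]` is at least `c min(H², H)`.
-/

set_option autoImplicit false

open MeasureTheory

namespace Pool.Agent.Results.MP_73417d_nt.AlmostAllT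

theorem result : ∀ ε : ℝ, 0 < ε → ∀ K : ℝ, 0 < K → ∃ c : ℝ, 0 < c ∧ ∃ X₀ : ℝ, ∀ X : ℝ, X₀ ≤ X →
    ∃ E : Set ℝ, MeasurableSet E ∧ E ⊆ Set.Icc X (2 * X) ∧ volume E ≤ ENNReal.ofReal (X ^ ε) ∧
      ∀ T ∈ Set.Icc X (2 * X), T ∉ E → ∀ H : ℝ, 0 < H → ∀ σ : ℝ,
        1 - K / Real.log (Real.log T) ≤ σ →
          c * min (H ^ 2) H ≤
            ∫ t in T..(T + H), ‖riemannZeta ((σ : ℂ) + (t : ℂ) * Complex.I)‖ :=
  Pool.Agent.ZUni.almost_all

end Pool.Agent.Results.MP_73417d_nt.AlmostAllT
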